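import Mathlib
import Pool.Agent.L7h19.FT.Stm
import Pool.Agent.L7h8.RP.Sub

/-!
# Project FT: growth of the sums over the residue classes (`S_GRR`)
-/

set_option autoImplicit false
set_option linter.unusedSectionVars false

namespace Pool.Agent.L7h78.FT

open Finset Polynomial Pool.Agent.W262.RK Pool.Agent.L7h19.RP Pool.Agent.L7h19.FT
open Pool.Agent.L7h19.RH (Q0)
open Pool.Agent.H474R2.PG (rho)

variable {J : Type} [Fintype J] [DecidableEq J]

/-- the facts about a tuple `s e` -/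
structure TF (z y : ℕ) (s e : J → ℕ) : Prop where
  sqf : Squarefree (∏ j, (s j * e j))
  sqm : Squarefree ((∏ j, s j) * ∏ j, e j)
  s0 : ∀ j, s j ≠ 0
  e0 : ∀ j, e j ≠ 0
  zp : ∀ p : ℕ, p.Prime → ∀ j, p ∣ s j * e j → z < p
  cop : ∀ i j, i ≠ j → (s i * e i).Coprime (s j * e j)
  card_e : (∏ j, e j).primeFactors.card = ∑ j, (e j).primeFactors.card
  iff_s : ∀ p : ℕ, p.Prime → p ∣ ∏ j, s j → ∀ j, p ∣ s j * e j ↔ p ∣ s j

theorem tf {z y : ℕ} {s e : J → ℕ} (hT : (fun j => s j * e j) ∈ Tup J z y) : TF z y s e := by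
  classical
  have hT' : (∀ j, s j * e j ∈ (PP z y).divisors) ∧
      ∀ i j, i ≠ j → (s i * e i).Coprime (s j * e j) := by
    unfold Tup at hT
    rw [mem_filter, Fintype.mem_piFinset] at hT
    exact hT
  have hsqj : ∀ j, Squarefree (s j * e j) := fun j => dv_squarefree (hT'.1 j)
  have hsq : Squarefree (∏ j, (s j * e j)) := by
    apply Finset.squarefree_prod_of_pairwise_isCoprime
    · intro i _ j _ hij
      exact Nat.coprime_iff_isRelPrime.1 (hT'.2 i j hij)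
    · intro j _
      exact hsqj j
  have hprod : ∏ j, (s j * e j) = (∏ j, s j) * ∏ j, e j := Finset.prod_mul_distrib
  have hme : Squarefree ((∏ j, s j) * ∏ j, e j) := hprod ▸ hsq
  have hs0 : ∀ j, s j ≠ 0 := fun j => left_ne_zero_of_mul (hsqj j).ne_zero
  have he0 : ∀ j, e j ≠ 0 := fun j => right_ne_zero_of_mul (hsqj j).ne_zero
  have hzp : ∀ p : ℕ, p.Prime → ∀ j, p ∣ s j * e j → z < p := fun p hp j hj =>
    (dv_prime (hT'.1 j) hp hj).1
  refine ⟨hsq, hme, hs0, he0, hzp, hT'.2, ?_, ?_⟩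
  · have h1 : (∏ j, e j).primeFactors = univ.biUnion (fun j => (e j).primeFactors) := by
      ext p
      rw [mem_biUnion]
      constructor
      · intro hp
        have hpp := Nat.prime_of_mem_primeFactors hp
        obtain ⟨j, _, hj⟩ := (hpp.prime.dvd_finsetProd_iff _).1 (Nat.dvd_of_mem_primeFactors hp)
        exact ⟨j, mem_univ _, Nat.mem_primeFactors.2 ⟨hpp, hj, he0 j⟩⟩
      · rintro ⟨j, _, hp⟩
        exact Nat.mem_primeFactors.2 ⟨Nat.prime_of_mem_primeFactors hp,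
          (Nat.dvd_of_mem_primeFactors hp).trans (dvd_prod_of_mem _ (mem_univ j)),
          prod_ne_zero_iff.2 fun j _ => he0 j⟩
    rw [h1, card_biUnion]
    intro i _ j _ hij
    have h2 : (e i).Coprime (e j) :=
      Nat.Coprime.of_dvd (dvd_mul_left _ _) (dvd_mul_left _ _) (hT'.2 i j hij)
    exact h2.disjoint_primeFactors
  · intro p hp h j
    constructor
    · intro hj
      obtain ⟨j0, _, hj0⟩ := (hp.prime.dvd_finsetProd_iff _).1 h
      by_cases hjj : j = j0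
      · rw [hjj]
        exact hj0
      · exfalso
        have h1 := hT'.2 j j0 hjj
        have h2 : p ∣ (s j * e j).gcd (s j0 * e j0) := Nat.dvd_gcd hj (hj0.trans (Dvd.intro _ rfl))
        rw [h1.gcd_eq_one] at h2
        exact hp.one_lt.ne' (Nat.dvd_one.1 h2)
    · intro hj
      exact hj.trans (Dvd.intro _ rfl)

lemma mem_Q0 {s : J → ℕ} (hs : ∀ j, s j ≠ 0) (p : ℕ) :
    p ∈ Q0 s ↔ p.Prime ∧ p ∣ ∏ j, s j := by
  unfold Q0
  rw [Nat.mem_primeFactors]
  constructor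
  · rintro ⟨h1, h2, _⟩
    exact ⟨h1, h2⟩
  · rintro ⟨h1, h2⟩
    exact ⟨h1, h2, prod_ne_zero_iff.2 fun j _ => hs j⟩

/-- **S_GRR** -/
theorem s_GRR : S_GRR := by
  intro J _ _ f κ c z y b Φ hz hb hρ hΦ0 hΦ s e hT
  classical
  have T := tf hT
  have hprod : ∏ j, (s j * e j) = (∏ j, s j) * ∏ j, e j := Finset.prod_mul_distrib
  set m := ∏ j, s j with hm
  have hm0 : m ≠ 0 := prod_ne_zero_iff.2 fun j _ => T.s0 j
  set N := ∑ j, (e j).primeFactors.card with hN
  -- the sets of the nonsplit primes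
  have hnF : ∀ t : ℤ, nF κ (fun j => s j * e j) t ∩ Q0 s = nF κ s t := by
    intro t
    ext p
    unfold nF
    rw [mem_inter, mem_filter, mem_filter, mem_Q0 T.s0,
      mem_Q0 (fun j => mul_ne_zero (T.s0 j) (T.e0 j))]
    constructor
    · rintro ⟨⟨⟨h1, h2⟩, j, h3, h4⟩, h5, h6⟩
      exact ⟨⟨h5, h6⟩, j, (T.iff_s p h5 h6 j).1 h3, h4⟩
    · rintro ⟨⟨h5, h6⟩, j, h3, h4⟩
      refine ⟨⟨⟨h5, ?_⟩, j, h3.trans (Dvd.intro _ rfl), h4⟩, h5, h6⟩
      rw [hprod]
      exact h6.trans (Dvd.intro _ rfl)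
  have hmod : ∀ t t' : ℤ, t ≡ t' [ZMOD m] → nF κ s t = nF κ s t' := by
    intro t t' h
    unfold nF
    refine filter_congr fun p _ => ?_
    refine exists_congr fun j => and_congr_right fun hj => ?_
    have h1 : t ≡ t' [ZMOD p] := h.of_dvd (Int.natCast_dvd_natCast.2
      (hj.trans (dvd_prod_of_mem _ (mem_univ j))))
    rw [jacobiSym.mod_left' (eval_mod (κ j) h1)]
  -- step 1
  have h1 : ∑ r ∈ Rs f (fun j => s j * e j),
      Φ (fun j => s j * e j) (nF κ (fun j => s j * e j) (r : ℤ)) ≤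
      b ^ N * ∑ r ∈ Rs f (fun j => s j * e j), Φ s (nF κ s (r : ℤ)) := by
    rw [mul_sum]
    refine sum_le_sum fun r hr => ?_
    have h2 := hΦ s e (nF κ (fun j => s j * e j) (r : ℤ)) hT
    rw [h2.1, hnF] at h2
    exact h2.2
  -- step 2
  have h3 : ∑ r ∈ Rs f (fun j => s j * e j), Φ s (nF κ s (r : ℤ)) ≤
      (c : ℝ) ^ N * ∑ r ∈ Rs f s, Φ s (nF κ s (r : ℤ)) := by
    have hmaps : ∀ r ∈ Rs f (fun j => s j * e j), r % m ∈ Rs f s := by
      intro r hr
      unfold Rs at hr ⊢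
      rw [mem_filter] at hr ⊢
      refine ⟨mem_range.2 (Nat.mod_lt _ (Nat.pos_of_ne_zero hm0)), fun j => ?_⟩
      have h4 : (s j : ℤ) ∣ (f j).eval (r : ℤ) := by
        refine Dvd.dvd.trans ?_ (hr.2 j)
        push_cast
        exact dvd_mul_right _ _
      have h5 : ((r % m : ℕ) : ℤ) ≡ (r : ℤ) [ZMOD (s j : ℕ)] :=
        (mod_self r m).of_dvd (Int.natCast_dvd_natCast.2 (dvd_prod_of_mem _ (mem_univ j)))
      exact (eval_mod (f j) h5).dvd_iff.2 h4
    have hval : ∀ r ∈ Rs f (fun j => s j * e j), Φ s (nF κ s (r : ℤ)) =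
        Φ s (nF κ s ((r % m : ℕ) : ℤ)) := by
      intro r _
      rw [hmod _ _ (mod_self r m)]
    rw [sum_congr rfl hval, ← sum_fiberwise_of_maps_to hmaps
      (fun r => Φ s (nF κ s ((r % m : ℕ) : ℤ)))]
    rw [mul_sum]
    refine sum_le_sum fun r0 hr0 => ?_
    have h6 : ∑ r ∈ (Rs f (fun j => s j * e j)).filter (fun r => r % m = r0),
        Φ s (nF κ s ((r % m : ℕ) : ℤ)) =
        (((Rs f (fun j => s j * e j)).filter (fun r => r % m = r0)).card : ℝ) *
          Φ s (nF κ s (r0 : ℤ)) := by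
      rw [sum_congr rfl (g := fun _ => Φ s (nF κ s (r0 : ℤ))) ?_, sum_const, nsmul_eq_mul]
      intro r hr
      rw [(mem_filter.1 hr).2]
    rw [h6]
    refine mul_le_mul_of_nonneg_right ?_ (hΦ0 _ _)
    have h7 := Pool.Agent.L7h8.RP.fiber f z c hρ e m T.sqm
      (fun p hp j hj => T.zp p hp j (hj.trans (dvd_mul_left _ _))) r0
    rw [T.card_e] at h7
    have h8 : ((Rs f (fun j => s j * e j)).filter (fun r => r % m = r0)).card ≤
        ((range (m * ∏ j, e j)).filter (fun r : ℕ => r % m = r0 ∧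
          ∀ j, (e j : ℤ) ∣ (f j).eval (r : ℤ))).card := by
      refine card_le_card ?_
      intro r hr
      rw [mem_filter] at hr ⊢
      obtain ⟨hr, hr2⟩ := hr
      unfold Rs at hr
      rw [mem_filter, hprod] at hr
      refine ⟨hr.1, hr2, fun j => ?_⟩
      refine Dvd.dvd.trans ?_ (hr.2 j)
      push_cast
      exact dvd_mul_left _ _
    exact_mod_cast h8.trans h7
  calc ∑ r ∈ Rs f (fun j => s j * e j),
        Φ (fun j => s j * e j) (nF κ (fun j => s j * e j) (r : ℤ)) ≤ b ^ N *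
        ∑ r ∈ Rs f (fun j => s j * e j), Φ s (nF κ s (r : ℤ)) := h1
    _ ≤ b ^ N * ((c : ℝ) ^ N * ∑ r ∈ Rs f s, Φ s (nF κ s (r : ℤ))) :=
        mul_le_mul_of_nonneg_left h3 (by positivity)
    _ = (b * c) ^ N * ∑ r ∈ Rs f s, Φ s (nF κ s (r : ℤ)) := by
        rw [mul_pow]; ring

end Pool.Agent.L7h78.FT
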