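import Mathlib
import Pool.Agent.L7h78.FT.Grr

/-!
# Project FT: growth of the majorant (`S_GRF`)
-/

set_option autoImplicit false
set_option linter.unusedSectionVars false

namespace Pool.Agent.L7h78.FT

open Finset Polynomial Pool.Agent.W262.RK Pool.Agent.L7h19.RP Pool.Agent.L7h19.FT
open Pool.Agent.L7h19.RH (Q0)
open Pool.Agent.H474R2.PG (rho)

/-- the kernel -/
def ker (P : Finset ℕ) (a : ℕ → ℕ → ℤ) : Finset (Finset ℕ) :=
  P.powerset.filter (fun S => ∀ p ∈ P, ∏ q ∈ S, a p q = 1)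

lemma prod_symmDiff {S T : Finset ℕ} {a : ℕ → ℤ} (ha : ∀ q ∈ S, q ∈ T → a q * a q = 1)
    (hS : ∏ q ∈ S, a q = 1) (hT : ∏ q ∈ T, a q = 1) : ∏ q ∈ symmDiff S T, a q = 1 := by
  have h1 : symmDiff S T = (S \ T) ∪ (T \ S) := rfl
  have hd : Disjoint (S \ T) (T \ S) := by
    rw [Finset.disjoint_left]
    intro q h1 h2
    exact (mem_sdiff.1 h1).2 (mem_sdiff.1 h2).1
  rw [h1, prod_union hd]
  have h2 : (∏ q ∈ S \ T, a q) * ∏ q ∈ S ∩ T, a q = 1 := by
    rw [← hS, mul_comm]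
    exact prod_inter_mul_prod_sdiff S T a
  have h3 : (∏ q ∈ T \ S, a q) * ∏ q ∈ S ∩ T, a q = 1 := by
    rw [← hT, mul_comm, inter_comm]
    exact prod_inter_mul_prod_sdiff T S a
  have h4 : (∏ q ∈ S ∩ T, a q) * ∏ q ∈ S ∩ T, a q = 1 := by
    rw [← prod_mul_distrib]
    exact prod_eq_one fun q hq => ha q (mem_inter.1 hq).1 (mem_inter.1 hq).2
  calc (∏ q ∈ S \ T, a q) * ∏ q ∈ T \ S, a q =
      ((∏ q ∈ S \ T, a q) * ∏ q ∈ S ∩ T, a q) * ((∏ q ∈ T \ S, a q) * ∏ q ∈ S ∩ T, a q) := by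
        linear_combination (-(∏ q ∈ S \ T, a q) * ∏ q ∈ T \ S, a q) * h4
    _ = 1 := by rw [h2, h3, one_mul]

theorem ker_union_le (P Q : Finset ℕ) (a : ℕ → ℕ → ℤ)
    (ha : ∀ p ∈ P, ∀ q ∈ P ∪ Q, a p q * a p q = 1) :
    (ker (P ∪ Q) a).card ≤ 2 ^ Q.card * (ker P a).card := by
  rw [card_eq_sum_card_fiberwise (f := fun S => S ∩ Q) (t := Q.powerset)
    (fun S _ => by
      rw [mem_coe, mem_powerset]
      exact inter_subset_right)]
  rw [← card_powerset, ← smul_eq_mul, ← sum_const]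
  refine sum_le_sum fun T _ => ?_
  by_cases hne : ((ker (P ∪ Q) a).filter (fun S => S ∩ Q = T)).Nonempty
  swap
  · rw [not_nonempty_iff_eq_empty.1 hne, card_empty]
    exact Nat.zero_le _
  obtain ⟨S0, hS0⟩ := hne
  rw [mem_filter] at hS0
  obtain ⟨hS0, hT0⟩ := hS0
  unfold ker at hS0
  rw [mem_filter, mem_powerset] at hS0
  refine card_le_card_of_injOn (fun S => symmDiff S S0) ?_ ?_
  · intro S hS
    rw [mem_coe, mem_filter] at hS
    obtain ⟨hS, hT⟩ := hS
    unfold ker at hS ⊢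
    rw [mem_filter, mem_powerset] at hS
    rw [mem_coe, mem_filter, mem_powerset]
    refine ⟨?_, fun p hp => ?_⟩
    · intro q hq
      rw [mem_symmDiff] at hq
      rcases hq with ⟨h1, h2⟩ | ⟨h1, h2⟩
      · rcases mem_union.1 (hS.1 h1) with h3 | h3
        · exact h3
        · exfalso
          have h4 : q ∈ S ∩ Q := mem_inter.2 ⟨h1, h3⟩
          rw [hT, ← hT0] at h4
          exact h2 (mem_inter.1 h4).1
      · rcases mem_union.1 (hS0.1 h1) with h3 | h3
        · exact h3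
        · exfalso
          have h4 : q ∈ S0 ∩ Q := mem_inter.2 ⟨h1, h3⟩
          rw [hT0, ← hT] at h4
          exact h2 (mem_inter.1 h4).1
    · exact prod_symmDiff (fun q hq _ => ha p hp q (hS.1 hq))
        (hS.2 p (mem_union_left _ hp)) (hS0.2 p (mem_union_left _ hp))
  · intro S _ S' _ h
    exact symmDiff_left_injective S0 h

lemma ker_congr {P : Finset ℕ} {a b : ℕ → ℕ → ℤ} (h : ∀ p ∈ P, ∀ q ∈ P, a p q = b p q) :
    ker P a = ker P b := by
  unfold ker
  refine filter_congr fun S hS => ?_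
  rw [mem_powerset] at hS
  refine forall₂_congr fun p hp => ?_
  rw [prod_congr rfl fun q hq => h p hp q (hS hq)]

theorem N0_eq (m : Fin 3 → ℕ) (E : Finset ℕ) (hm : Squarefree (Mt m)) :
    N0 m E = (ker (Mt m).primeFactors (sy3 m E)).card := by
  unfold N0 ker
  refine Finset.card_bij' (fun d _ => d.primeFactors) (fun S _ => ∏ p ∈ S, p) ?_ ?_ ?_ ?_
  · intro d hd
    rw [mem_filter, Nat.mem_divisors] at hd
    rw [mem_filter, mem_powerset]
    exact ⟨Nat.primeFactors_mono hd.1.1 hd.1.2, hd.2⟩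
  · intro S hS
    rw [mem_filter, mem_powerset] at hS
    rw [mem_filter, Nat.mem_divisors]
    have h1 : (∏ p ∈ S, p).primeFactors = S :=
      Nat.primeFactors_prod fun p hp => Nat.prime_of_mem_primeFactors (hS.1 hp)
    refine ⟨⟨?_, hm.ne_zero⟩, ?_⟩
    · rw [← Nat.prod_primeFactors_of_squarefree hm]
      exact prod_dvd_prod_of_subset _ _ _ hS.1
    · rw [h1]
      exact hS.2
  · intro d hd
    rw [mem_filter, Nat.mem_divisors] at hd
    exact Nat.prod_primeFactors_of_squarefree (hm.squarefree_of_dvd hd.1.1)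
  · intro S hS
    rw [mem_filter, mem_powerset] at hS
    exact Nat.primeFactors_prod fun p hp => Nat.prime_of_mem_primeFactors (hS.1 hp)

variable {J : Type} [Fintype J] [DecidableEq J]

lemma Mt_mc (cls : J → Fin 3) (s : J → ℕ) : Mt (mc cls s) = ∏ j, s j := by
  unfold Mt mc
  exact Finset.prod_fiberwise univ cls s

lemma mc_ne (cls : J → Fin 3) {s : J → ℕ} (hs : ∀ j, s j ≠ 0) (c : Fin 3) : mc cls s c ≠ 0 :=
  prod_ne_zero_iff.2 fun j _ => hs j

lemma dvd_mc (cls : J → Fin 3) (s : J → ℕ) (c : Fin 3) {p : ℕ} (hp : p.Prime) :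
    p ∣ mc cls s c ↔ ∃ j, cls j = c ∧ p ∣ s j := by
  unfold mc
  rw [hp.prime.dvd_finsetProd_iff]
  constructor
  · rintro ⟨j, hj, h⟩
    exact ⟨j, (mem_filter.1 hj).2, h⟩
  · rintro ⟨j, hj, h⟩
    exact ⟨j, mem_filter.2 ⟨mem_univ _, hj⟩, h⟩

lemma mc_sub_Q0 (cls : J → Fin 3) {s : J → ℕ} (hs : ∀ j, s j ≠ 0) (c : Fin 3) :
    (mc cls s c).primeFactors ⊆ Q0 s := by
  intro p hp
  rw [mem_Q0 hs]
  have h1 := Nat.prime_of_mem_primeFactors hp
  refine ⟨h1, (Nat.dvd_of_mem_primeFactors hp).trans ?_⟩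
  rw [← Mt_mc cls s]
  unfold Mt
  exact dvd_prod_of_mem _ (mem_univ c)

lemma Ms_pf (m : Fin 3 → ℕ) (E : Finset ℕ) (c : Fin 3) :
    (Ms m E c).primeFactors = (m c).primeFactors.filter (fun p => p ∉ E) := by
  unfold Ms
  exact Nat.primeFactors_prod fun p hp => Nat.prime_of_mem_primeFactors (mem_filter.1 hp).1

/-- the part on the restriction of the sign pattern -/
theorem gF_inter (cls : J → Fin 3) (G : Finset (Fin 3)) {s : J → ℕ} (hs : ∀ j, s j ≠ 0)
    (E : Finset ℕ) : gF G (mc cls s) E = gF G (mc cls s) (E ∩ Q0 s) := by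
  have hN : N0 (mc cls s) E = N0 (mc cls s) (E ∩ Q0 s) := by
    unfold N0
    congr 1
    refine filter_congr fun d _ => ?_
    refine forall₂_congr fun p hp => ?_
    have hpQ : p ∈ Q0 s := by
      rw [Mt_mc] at hp
      exact hp
    rw [prod_congr rfl fun q _ => ?_]
    unfold sy3
    by_cases hE : p ∈ E
    · rw [if_pos hE, if_pos (mem_inter.2 ⟨hE, hpQ⟩)]
    · rw [if_neg hE, if_neg (fun h => hE (mem_inter.1 h).1)]
  have hM : ∀ c, Ms (mc cls s) E c = Ms (mc cls s) (E ∩ Q0 s) c := by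
    intro c
    unfold Ms
    congr 1
    refine filter_congr fun p hp => ?_
    have hpQ : p ∈ Q0 s := mc_sub_Q0 cls hs c hp
    rw [mem_inter]
    constructor
    · intro h h'
      exact h h'.1
    · intro h h'
      exact h ⟨h', hpQ⟩
  have hd : ∀ c, dl (mc cls s) E c = dl (mc cls s) (E ∩ Q0 s) c := by
    intro c
    unfold dl
    rw [hM c]
  have he : ex G (mc cls s) E = ex G (mc cls s) (E ∩ Q0 s) := by
    unfold ex
    simp only [hd]
  unfold gF
  rw [hN, he]

/-- the growth of the kernel -/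
theorem N0_grow (cls : J → Fin 3) {z y : ℕ} (hz : 2 ≤ z) {s e : J → ℕ}
    (hT : (fun j => s j * e j) ∈ Tup J z y) (E : Finset ℕ) :
    N0 (mc cls (fun j => s j * e j)) E ≤
      2 ^ (∑ j, (e j).primeFactors.card) * N0 (mc cls s) E := by
  have T := tf hT
  have hprod : ∏ j, (s j * e j) = (∏ j, s j) * ∏ j, e j := Finset.prod_mul_distrib
  have h0 : ∀ j, s j * e j ≠ 0 := fun j => mul_ne_zero (T.s0 j) (T.e0 j)
  have hP0 : ∏ j, s j ≠ 0 := prod_ne_zero_iff.2 fun j _ => T.s0 j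
  have hQ0 : ∏ j, e j ≠ 0 := prod_ne_zero_iff.2 fun j _ => T.e0 j
  rw [N0_eq _ E (by rw [Mt_mc]; exact T.sqf),
    N0_eq _ E (by rw [Mt_mc]; exact T.sqm.squarefree_of_dvd (dvd_mul_right _ _)), Mt_mc, Mt_mc,
    hprod, Nat.primeFactors_mul hP0 hQ0, ← T.card_e]
  set m2 := mc cls (fun j => s j * e j) with hm2
  have h1 : ker (∏ j, s j).primeFactors (sy3 (mc cls s) E) =
      ker (∏ j, s j).primeFactors (sy3 m2 E) := by
    refine ker_congr fun p hp q hq => ?_
    have hpp := Nat.prime_of_mem_primeFactors hp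
    have hqp := Nat.prime_of_mem_primeFactors hq
    have hpd := Nat.dvd_of_mem_primeFactors hp
    have hqd := Nat.dvd_of_mem_primeFactors hq
    have h2 : (∃ c, p ∣ mc cls s c ∧ q ∣ mc cls s c) ↔ ∃ c, p ∣ m2 c ∧ q ∣ m2 c := by
      refine exists_congr fun c => ?_
      rw [hm2, dvd_mc cls _ c hpp, dvd_mc cls _ c hqp, dvd_mc cls _ c hpp, dvd_mc cls _ c hqp]
      refine and_congr (exists_congr fun j => and_congr_right fun _ => ?_)
        (exists_congr fun j => and_congr_right fun _ => ?_)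
      · exact (T.iff_s p hpp hpd j).symm
      · exact (T.iff_s q hqp hqd j).symm
    unfold sy3
    by_cases h : ∃ c, p ∣ mc cls s c ∧ q ∣ mc cls s c
    · rw [if_pos h, if_pos (h2.1 h)]
    · rw [if_neg h, if_neg (fun h' => h (h2.2 h'))]
  rw [h1]
  apply ker_union_le
  intro p hp q hq
  have hpp := Nat.prime_of_mem_primeFactors hp
  have hqp : q.Prime := by
    rcases mem_union.1 hq with h | h <;> exact Nat.prime_of_mem_primeFactors h
  unfold sy3
  split_ifs with a1 a2 a3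
  · norm_num
  · norm_num
  · norm_num
  · have hp2 : z < p := by
      obtain ⟨j, _, hj⟩ := (hpp.prime.dvd_finsetProd_iff _).1 (Nat.dvd_of_mem_primeFactors hp)
      exact T.zp p hpp j (hj.trans (Dvd.intro _ rfl))
    have hco : q.Coprime p := (Nat.coprime_primes hqp hpp).2 a1
    have h3 : Int.gcd (q : ℤ) p = 1 := by
      rw [Int.gcd_natCast_natCast]
      exact hco
    have h4 := jacobiSym.sq_one h3
    rw [sq] at h4
    exact h4

lemma Mo_mc (cls : J → Fin 3) (s : J → ℕ) (c : Fin 3) :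
    Mo (mc cls s) c = ∏ j ∈ univ.filter (fun j => cls j ≠ c), s j := by
  unfold Mo mc
  symm
  rw [← Finset.prod_fiberwise_of_maps_to (s := univ.filter (fun j => cls j ≠ c))
    (t := univ.filter (fun e : Fin 3 => e ≠ c)) (g := cls)
    (fun j hj => mem_filter.2 ⟨mem_univ _, (mem_filter.1 hj).2⟩)]
  refine prod_congr rfl fun e he => ?_
  congr 1
  ext j
  rw [mem_filter, mem_filter, mem_filter]
  constructor
  · rintro ⟨_, h⟩
    exact ⟨mem_univ _, h⟩
  · rintro ⟨_, h⟩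
    exact ⟨⟨mem_univ _, h ▸ (mem_filter.1 he).2⟩, h⟩

theorem dl_grow (cls : J → Fin 3) {z y : ℕ} {s e : J → ℕ}
    (hT : (fun j => s j * e j) ∈ Tup J z y) (E : Finset ℕ) (c : Fin 3) :
    dl (mc cls s) E c ≤
      dl (mc cls (fun j => s j * e j)) E c + (∑ j, (e j).primeFactors.card : ℕ) := by
  have T := tf hT
  have h0 : ∀ j, s j * e j ≠ 0 := fun j => mul_ne_zero (T.s0 j) (T.e0 j)
  have h1 : (Ms (mc cls s) E c).primeFactors.card ≤
      (Ms (mc cls (fun j => s j * e j)) E c).primeFactors.card := by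
    refine card_le_card ?_
    rw [Ms_pf, Ms_pf]
    refine filter_subset_filter _ ?_
    refine Nat.primeFactors_mono ?_ (mc_ne cls h0 c)
    unfold mc
    rw [prod_mul_distrib]
    exact dvd_mul_right _ _
  have h2 : (Mo (mc cls (fun j => s j * e j)) c).primeFactors.card ≤
      (Mo (mc cls s) c).primeFactors.card + ∑ j, (e j).primeFactors.card := by
    rw [Mo_mc, Mo_mc, prod_mul_distrib, Nat.primeFactors_mul
      (prod_ne_zero_iff.2 fun j _ => T.s0 j) (prod_ne_zero_iff.2 fun j _ => T.e0 j)]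
    refine (card_union_le _ _).trans ?_
    refine Nat.add_le_add_left ?_ _
    rw [← T.card_e]
    refine card_le_card (Nat.primeFactors_mono ?_ (prod_ne_zero_iff.2 fun j _ => T.e0 j))
    exact prod_dvd_prod_of_subset _ _ _ (filter_subset _ _)
  unfold dl
  omega

theorem ex_grow (cls : J → Fin 3) (G : Finset (Fin 3)) {z y : ℕ} {s e : J → ℕ}
    (hT : (fun j => s j * e j) ∈ Tup J z y) (E : Finset ℕ) :
    ex G (mc cls s) E ≤
      ex G (mc cls (fun j => s j * e j)) E + ∑ j, (e j).primeFactors.card := by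
  unfold ex
  refine Finset.sup_le fun c hc => ?_
  have h1 := dl_grow cls hT E c
  have h2 : (dl (mc cls (fun j => s j * e j)) E c).toNat ≤
      (univ.filter (fun c => c ∉ G)).sup
        (fun c => (dl (mc cls (fun j => s j * e j)) E c).toNat) :=
    Finset.le_sup (f := fun c => (dl (mc cls (fun j => s j * e j)) E c).toNat) hc
  omega

/-- **S_GRF** -/
theorem s_GRF : S_GRF := by
  intro J _ _ cls G z y s e E hz hT
  have T := tf hT
  refine ⟨gF_inter cls G T.s0 E, ?_⟩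
  have h1 := N0_grow cls hz hT E
  have h2 := ex_grow cls G hT E
  set N := ∑ j, (e j).primeFactors.card with hN
  unfold gF
  set a := ex G (mc cls s) E
  set b := ex G (mc cls (fun j => s j * e j)) E
  have h3 : (N0 (mc cls (fun j => s j * e j)) E : ℝ) ≤ 2 ^ N * (N0 (mc cls s) E : ℝ) := by
    exact_mod_cast h1
  have h4 : (2 : ℝ) ^ a ≤ 2 ^ b * 2 ^ N := by
    rw [← pow_add]
    exact pow_le_pow_right₀ (by norm_num) h2
  rw [div_le_iff₀ (by positivity)]
  have h5 : (4 : ℝ) ^ N = 2 ^ N * 2 ^ N := by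
    rw [← mul_pow]; norm_num
  have h6 : 0 ≤ (N0 (mc cls s) E : ℝ) := Nat.cast_nonneg _
  calc (N0 (mc cls (fun j => s j * e j)) E : ℝ) ≤ 2 ^ N * (N0 (mc cls s) E : ℝ) := h3
    _ = 2 ^ N * ((N0 (mc cls s) E : ℝ) / 2 ^ a) * 2 ^ a := by field_simp
    _ ≤ 2 ^ N * ((N0 (mc cls s) E : ℝ) / 2 ^ a) * (2 ^ b * 2 ^ N) :=
        mul_le_mul_of_nonneg_left h4 (by positivity)
    _ = 4 ^ N * ((N0 (mc cls s) E : ℝ) / 2 ^ a) * 2 ^ b := by rw [h5]; ring

end Pool.Agent.L7h78.FT
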