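import Mathlib
import Pool.Agent.L7h19.RP.Bez
import Pool.Agent.L7h19.FT.Stm3

/-!
# Project FT: squares in the field and squares modulo primes (`S_SQ`)
-/

set_option autoImplicit false

namespace Pool.Agent.L7h78.FT

open Finset Polynomial Pool.Agent.L7h19.RP Pool.Agent.L7h19.FT

lemma int_normal (a : ℚ[X]) : ∃ (A : ℤ[X]) (m : ℤ), m ≠ 0 ∧
    A.map (Int.castRingHom ℚ) = C (m : ℚ) * a := by
  obtain ⟨m, hmm, hm⟩ := IsLocalization.integerNormalization_spec (nonZeroDivisors ℤ) a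
  refine ⟨IsLocalization.integerNormalization (nonZeroDivisors ℤ) a, m,
    nonZeroDivisors.ne_zero hmm, ?_⟩
  have h1 : (IsLocalization.integerNormalization (nonZeroDivisors ℤ) a).map (algebraMap ℤ ℚ) =
      C ((m : ℤ) : ℚ) * a := by
    rw [hm]
    ext k
    simp
  exact h1

/-- `d² κ = h² + f g` -/
lemma sq_int {f κ : ℤ[X]}
    (h : IsSquare (AdjoinRoot.mk (f.map (Int.castRingHom ℚ)) (κ.map (Int.castRingHom ℚ)))) :
    ∃ (d : ℤ) (H g : ℤ[X]), d ≠ 0 ∧ C (d ^ 2) * κ = H ^ 2 + f * g := by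
  obtain ⟨β, hβ⟩ := h
  obtain ⟨b, rfl⟩ := AdjoinRoot.mk_surjective β
  rw [← map_mul, AdjoinRoot.mk_eq_mk] at hβ
  obtain ⟨a, ha⟩ := hβ
  obtain ⟨B, m, hm, hB⟩ := int_normal b
  obtain ⟨A, n, hn, hA⟩ := int_normal a
  refine ⟨m * n, C n * B, C (m ^ 2 * n) * A, mul_ne_zero hm hn, ?_⟩
  apply map_injective (Int.castRingHom ℚ) (Int.castRingHom ℚ).injective_int
  simp only [Polynomial.map_mul, Polynomial.map_add, Polynomial.map_pow, map_C, hB, hA,
    eq_intCast (Int.castRingHom ℚ), Int.cast_mul, Int.cast_pow, C_mul, C_pow]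
  linear_combination (C (m : ℚ) ^ 2 * C (n : ℚ) ^ 2) * ha

/-- **S_SQ** -/
theorem s_SQ : S_SQ := by
  intro f κ hf hd hκ hsq
  obtain ⟨B, hB⟩ := large_nd hf hd hκ
  obtain ⟨d, H, g, hd0, hdg⟩ := sq_int hsq
  refine ⟨max B d.natAbs, fun p hp hpz ν hν => ?_⟩
  have hpB : B < p := lt_of_le_of_lt (le_max_left _ _) hpz
  have hpd : d.natAbs < p := lt_of_le_of_lt (le_max_right _ _) hpz
  have h1 := hB p hpB ν hν
  have hdp : ¬ (p : ℤ) ∣ d := by
    intro h
    have h2 := Nat.le_of_dvd (Int.natAbs_pos.2 hd0) (Int.natCast_dvd.1 h)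
    omega
  have h2 : d ^ 2 * κ.eval ν = (H.eval ν) ^ 2 + f.eval ν * g.eval ν := by
    have h3 := congrArg (eval ν) hdg
    simpa using h3
  have hpI : Prime (p : ℤ) := Nat.prime_iff_prime_int.1 hp
  have hH : ¬ (p : ℤ) ∣ H.eval ν := by
    intro h
    have h3 : (p : ℤ) ∣ d ^ 2 * κ.eval ν := by
      rw [h2]
      exact dvd_add (h.trans (dvd_pow_self _ (by norm_num))) (hν.mul_right _)
    rcases hpI.dvd_or_dvd h3 with h4 | h4
    · exact hdp (hpI.dvd_of_dvd_pow h4)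
    · exact h1 h4
  have hcop : ∀ a : ℤ, ¬ (p : ℤ) ∣ a → a.gcd p = 1 := by
    intro a ha
    have h3 : IsCoprime (p : ℤ) a := (Prime.coprime_iff_not_dvd hpI).2 ha
    exact Int.isCoprime_iff_gcd_eq_one.1 h3.symm
  have h5 : jacobiSym (d ^ 2 * κ.eval ν) p = 1 := by
    have h6 : d ^ 2 * κ.eval ν ≡ (H.eval ν) ^ 2 [ZMOD p] := by
      rw [h2]
      refine (Int.modEq_iff_dvd.2 ?_).symm
      rw [show H.eval ν ^ 2 + f.eval ν * g.eval ν - H.eval ν ^ 2 = f.eval ν * g.eval ν by ring]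
      exact hν.mul_right _
    rw [jacobiSym.mod_left' h6, jacobiSym.pow_left]
    exact jacobiSym.sq_one (hcop _ hH)
  rw [jacobiSym.mul_left, jacobiSym.pow_left, jacobiSym.sq_one (hcop _ hdp), one_mul] at h5
  exact h5

end Pool.Agent.L7h78.FT
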