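import Mathlib
import Pool.Agent.L7h19.FT.Stm4

/-!
# Project FT: the exponents of the curve as sums over the factors (`S_DZ2`)
-/

set_option autoImplicit false
set_option linter.unusedSectionVars false

namespace Pool.Agent.L7h78.FT

open Finset Polynomial Pool.Agent.W262.RK Pool.Agent.W307.RT Pool.Agent.L7h19.RP
open Pool.Agent.L7h19.IS Pool.Agent.L7h19.FT

variable {J : Type} [Fintype J] [DecidableEq J]

/-- the primes dividing `n` with `P` -/
def pf (P : ℕ → Prop) [DecidablePred P] (n : ℤ) : Finset ℕ := n.natAbs.primeFactors.filter P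

/-- the bad primes -/
def Bz (a : Fin 3 → ℤ) (z : ℕ) : Finset ℕ :=
  Icc 1 z ∪ univ.biUnion (fun c => (a c).natAbs.primeFactors)

lemma card_Bz (a : Fin 3 → ℤ) (z : ℕ) :
    (Bz a z).card ≤ z + ∑ c, (a c).natAbs.primeFactors.card := by
  unfold Bz
  refine (card_union_le _ _).trans (add_le_add ?_ card_biUnion_le)
  rw [Nat.card_Icc]
  omega

/-- the indices of class `c` -/
def fcl (cls : J → Fin 3) (c : Fin 3) : Finset J := univ.filter (fun j => cls j = c)

lemma Fv_dvd (cls : J → Fin 3) (a : Fin 3 → ℤ) (x : J → ℤ) (c : Fin 3) {p : ℕ} (hp : p.Prime) :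
    (p : ℤ) ∣ Fv cls a x c ↔ (p : ℤ) ∣ a c ∨ ∃ j ∈ fcl cls c, (p : ℤ) ∣ x j := by
  have hpi : Prime (p : ℤ) := Nat.prime_iff_prime_int.1 hp
  unfold Fv
  rw [hpi.dvd_mul, hpi.dvd_finsetProd_iff]
  rfl

lemma mem_pf {P : ℕ → Prop} [DecidablePred P] {n : ℤ} (hn : n ≠ 0) {p : ℕ} :
    p ∈ pf P n ↔ p.Prime ∧ (p : ℤ) ∣ n ∧ P p := by
  unfold pf
  rw [mem_filter, Nat.mem_primeFactors, Int.natCast_dvd]
  constructor
  · rintro ⟨⟨h1, h2, _⟩, h3⟩
    exact ⟨h1, h2, h3⟩
  · rintro ⟨h1, h2, h3⟩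
    exact ⟨⟨h1, h2, Int.natAbs_ne_zero.2 hn⟩, h3⟩

theorem cnt_le (cls : J → Fin 3) (a : Fin 3 → ℤ) (x : J → ℤ) (z : ℕ) (c : Fin 3)
    (hG : Gd z x) (ha : ∀ c, a c ≠ 0) (P : ℕ → Prop) [DecidablePred P] :
    (pf P (Fv cls a x c)).card ≤
      ∑ j ∈ fcl cls c, (pf P (x j)).card + (z + ∑ c, (a c).natAbs.primeFactors.card) := by
  have hF : Fv cls a x c ≠ 0 := mul_ne_zero (ha c) (prod_ne_zero_iff.2 fun j _ => hG.1 j)
  have h1 : pf P (Fv cls a x c) ⊆ (fcl cls c).biUnion (fun j => pf P (x j)) ∪ Bz a z := by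
    intro p hp
    rw [mem_pf hF] at hp
    obtain ⟨hp1, hp2, hp3⟩ := hp
    rw [mem_union]
    rcases (Fv_dvd cls a x c hp1).1 hp2 with h | ⟨j, hj, h⟩
    · right
      unfold Bz
      rw [mem_union, mem_biUnion]
      right
      refine ⟨c, mem_univ _, ?_⟩
      rw [Nat.mem_primeFactors]
      exact ⟨hp1, Int.natCast_dvd.1 h, Int.natAbs_ne_zero.2 (ha c)⟩
    · left
      rw [mem_biUnion]
      exact ⟨j, hj, (mem_pf (hG.1 j)).2 ⟨hp1, h, hp3⟩⟩
  exact (card_le_card h1).trans ((card_union_le _ _).trans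
    (add_le_add card_biUnion_le (card_Bz a z)))

theorem le_cnt (cls : J → Fin 3) (a : Fin 3 → ℤ) (x : J → ℤ) (z : ℕ) (c : Fin 3)
    (hG : Gd z x) (ha : ∀ c, a c ≠ 0) (P : ℕ → Prop) [DecidablePred P] :
    ∑ j ∈ fcl cls c, (pf P (x j)).card ≤ (pf P (Fv cls a x c)).card +
      (fcl cls c).card * (z + ∑ c, (a c).natAbs.primeFactors.card) := by
  have hF : Fv cls a x c ≠ 0 := mul_ne_zero (ha c) (prod_ne_zero_iff.2 fun j _ => hG.1 j)
  have h1 : ∀ j ∈ fcl cls c, (pf P (x j)).card ≤ (pf P (x j) \ Bz a z).card +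
      (z + ∑ c, (a c).natAbs.primeFactors.card) := by
    intro j _
    have h2 : pf P (x j) ⊆ (pf P (x j) \ Bz a z) ∪ Bz a z := by
      intro p hp
      rw [mem_union, mem_sdiff]
      by_cases h : p ∈ Bz a z
      · exact Or.inr h
      · exact Or.inl ⟨hp, h⟩
    exact (card_le_card h2).trans ((card_union_le _ _).trans
      (Nat.add_le_add_left (card_Bz a z) _))
  refine (sum_le_sum h1).trans ?_
  rw [sum_add_distrib, sum_const, smul_eq_mul]
  refine Nat.add_le_add_right ?_ _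
  rw [← card_biUnion]
  · refine card_le_card ?_
    intro p hp
    rw [mem_biUnion] at hp
    obtain ⟨j, hj, hp⟩ := hp
    rw [mem_sdiff, mem_pf (hG.1 j)] at hp
    rw [mem_pf hF]
    exact ⟨hp.1.1, (Fv_dvd cls a x c hp.1.1).2 (Or.inr ⟨j, hj, hp.1.2.1⟩), hp.1.2.2⟩
  · intro i _ j _ hij
    rw [Function.onFun, Finset.disjoint_left]
    intro p hp hq
    rw [mem_sdiff, mem_pf (hG.1 i)] at hp
    rw [mem_sdiff, mem_pf (hG.1 j)] at hq
    refine hG.2 p hp.1.1 ?_ i j hij ⟨hp.1.2.1, hq.1.2.1⟩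
    by_contra hz
    apply hp.2
    unfold Bz
    rw [mem_union, mem_Icc]
    exact Or.inl ⟨hp.1.1.one_lt.le, by omega⟩

lemma om_pf (n : ℤ) : om n = (pf (fun _ => True) n).card := by
  unfold om pf
  rw [filter_true]

lemma sp_pf (κ n : ℤ) : sp κ n = (pf (fun p => p ≠ 2 ∧ jacobiSym κ p = 1) n).card := rfl

lemma fcl_add (cls : J → Fin 3) {c c1 c2 : Fin 3} (h1 : c1 ≠ c) (h2 : c2 ≠ c) (h12 : c1 ≠ c2)
    (f : J → ℤ) : ∑ j ∈ univ.filter (fun j => cls j ≠ c), f j =
      ∑ j ∈ fcl cls c1, f j + ∑ j ∈ fcl cls c2, f j := by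
  have hd : Disjoint (fcl cls c1) (fcl cls c2) := by
    rw [Finset.disjoint_left]
    intro j hj hj'
    exact h12 ((mem_filter.1 hj).2.symm.trans (mem_filter.1 hj').2)
  rw [← sum_union hd]
  refine sum_congr ?_ fun _ _ => rfl
  ext j
  unfold fcl
  rw [mem_union, mem_filter, mem_filter, mem_filter]
  constructor
  · rintro ⟨_, h⟩
    have h3 : cls j = c1 ∨ cls j = c2 := by
      generalize cls j = d at h
      clear hd
      revert h h1 h2 h12
      revert c c1 c2 d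
      decide
    rcases h3 with h3 | h3
    · exact Or.inl ⟨mem_univ _, h3⟩
    · exact Or.inr ⟨mem_univ _, h3⟩
  · rintro (⟨_, h⟩ | ⟨_, h⟩)
    · exact ⟨mem_univ _, by rw [h]; exact h1⟩
    · exact ⟨mem_univ _, by rw [h]; exact h2⟩

theorem main (cls : J → Fin 3) (a : Fin 3 → ℤ) (x : J → ℤ) (z : ℕ) (c c1 c2 : Fin 3)
    (h1 : c1 ≠ c) (h2 : c2 ≠ c) (h12 : c1 ≠ c2) (κ : ℤ)
    (hG : Gd z x) (ha : ∀ c, a c ≠ 0) :
    |((sp κ (Fv cls a x c) : ℤ) - om (Fv cls a x c1) - om (Fv cls a x c2)) -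
    (∑ j ∈ univ.filter (fun j => cls j = c), (sp κ (x j) : ℤ) -
      ∑ j ∈ univ.filter (fun j => cls j ≠ c), (om (x j) : ℤ))| ≤
    (((Fintype.card J + 3) * (z + ∑ c, (a c).natAbs.primeFactors.card) : ℕ) : ℤ) := by
  rw [fcl_add cls h1 h2 h12]
  set W := z + ∑ c, (a c).natAbs.primeFactors.card with hW
  have a1 := cnt_le cls a x z c hG ha (fun p => p ≠ 2 ∧ jacobiSym κ p = 1)
  have a2 := le_cnt cls a x z c hG ha (fun p => p ≠ 2 ∧ jacobiSym κ p = 1)
  have b1 := cnt_le cls a x z c1 hG ha (fun _ => True)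
  have b2 := le_cnt cls a x z c1 hG ha (fun _ => True)
  have d1 := cnt_le cls a x z c2 hG ha (fun _ => True)
  have d2 := le_cnt cls a x z c2 hG ha (fun _ => True)
  rw [← hW] at a1 a2 b1 b2 d1 d2
  simp only [← sp_pf] at a1 a2
  simp only [← om_pf] at b1 b2 d1 d2
  have hn : (fcl cls c).card ≤ Fintype.card J := card_le_univ _
  have hn12 : (fcl cls c1).card + (fcl cls c2).card ≤ Fintype.card J := by
    rw [← card_union_of_disjoint]
    · exact card_le_univ _
    · rw [Finset.disjoint_left]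
      intro j hj hj'
      exact h12 ((mem_filter.1 hj).2.symm.trans (mem_filter.1 hj').2)
  have e1 : (fcl cls c).card * W ≤ Fintype.card J * W := Nat.mul_le_mul_right _ hn
  have e2 : (fcl cls c1).card * W + (fcl cls c2).card * W ≤ Fintype.card J * W := by
    rw [← add_mul]
    exact Nat.mul_le_mul_right _ hn12
  have e3 : (Fintype.card J + 3) * W = Fintype.card J * W + 3 * W := by ring
  rw [e3]
  have f0 : univ.filter (fun j => cls j = c) = fcl cls c := rfl
  rw [f0]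
  have g0 : ∑ j ∈ fcl cls c, (sp κ (x j) : ℤ) = ((∑ j ∈ fcl cls c, sp κ (x j) : ℕ) : ℤ) := by
    push_cast; rfl
  have g1 : ∑ j ∈ fcl cls c1, (om (x j) : ℤ) = ((∑ j ∈ fcl cls c1, om (x j) : ℕ) : ℤ) := by
    push_cast; rfl
  have g2 : ∑ j ∈ fcl cls c2, (om (x j) : ℤ) = ((∑ j ∈ fcl cls c2, om (x j) : ℕ) : ℤ) := by
    push_cast; rfl
  rw [g0, g1, g2]
  generalize (fcl cls c).card * W = u0 at *
  generalize (fcl cls c1).card * W = u1 at *
  generalize (fcl cls c2).card * W = u2 at *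
  generalize Fintype.card J * W = u3 at *
  rw [abs_le]
  constructor <;> omega

/-- **S_DZ2** -/
theorem s_DZ2 : S_DZ2 := by
  intro J _ _ cls a x z c _ hG ha heq
  have hc : c = 0 ∨ c = 1 ∨ c = 2 := by
    revert c
    decide
  unfold dz
  rcases hc with rfl | rfl | rfl
  · have h := main cls a x z 0 1 2 (by decide) (by decide) (by decide)
      (kz (Fv cls a x 0) (Fv cls a x 1) 0) hG ha
    rw [if_pos rfl, heq]
    exact h
  · have h := main cls a x z 1 0 2 (by decide) (by decide) (by decide)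
      (kz (Fv cls a x 0) (Fv cls a x 1) 1) hG ha
    rw [if_neg (by decide), if_pos rfl, heq]
    exact h
  · have h := main cls a x z 2 0 1 (by decide) (by decide) (by decide)
      (kz (Fv cls a x 0) (Fv cls a x 1) 2) hG ha
    rw [if_neg (by decide), if_neg (by decide), heq]
    exact h

end Pool.Agent.L7h78.FT
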